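import Pool.Agent.W2helper78.LT.Stm

/-!
# Project LT (helper78), piece CU: union bound for the bad chain event
-/

set_option autoImplicit false

namespace Pool.Agent.W2helper3.LT

open H974 Finset H342P H984P H984H TH992.L W78LT

theorem win_sub {n W : ℤ} {q : Vtx} (hW : 3 * W ≤ n) : Win n W q ⊆ RE 0 n 0 n := by
  unfold Win wx
  exact RE_subset (by omega) (by omega) (by omega) (by omega)

theorem wx_hi {n W x : ℤ} (hW : 1 ≤ W) (hx : 0 ≤ x) : wx n W x + 3 * W ≤ (x + 3) * W := by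
  have h1 : (x - 1) * W = x * W - W := by ring
  have h2 : (x + 3) * W = x * W + 3 * W := by ring
  have h3 : 0 ≤ x * W := mul_nonneg hx (by omega)
  unfold wx
  omega

theorem wx_lo {n W x : ℤ} (hW : 1 ≤ W) (hx : x * W ≤ n) : (x - 3) * W ≤ wx n W x := by
  have h1 : (x - 1) * W = x * W - W := by ring
  have h2 : (x - 3) * W = x * W - 3 * W := by ring
  unfold wx
  omega

theorem wx_sep {n W x y : ℤ} (hW : 1 ≤ W) (hx : 0 ≤ x) (hy : y * W ≤ n) (h : x + 7 ≤ y) :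
    wx n W x + 3 * W < wx n W y := by
  have h1 := wx_hi (n := n) hW hx
  have h2 := wx_lo (n := n) hW hy
  have h3 : (x + 3) * W + W ≤ (y - 3) * W := by
    have : (x + 4) * W ≤ (y - 3) * W := mul_le_mul_of_nonneg_right (by omega) (by omega)
    have e : (x + 4) * W = (x + 3) * W + W := by ring
    omega
  omega

theorem win_disj {n W : ℤ} (hW : 1 ≤ W) {q r : Vtx} (hq : Blk0 n W q) (hr : Blk0 n W r)
    (h : cls q = cls r) (hne : q ≠ r) : Disjoint (Win n W q) (Win n W r) := by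
  have hfar := cls_far h hne
  rw [det_sd_eq] at hfar
  obtain ⟨q1, q2, q3, q4⟩ := hq
  obtain ⟨r1, r2, r3, r4⟩ := hr
  rw [disjoint_left]
  intro e he hr'
  unfold Win at he hr'
  obtain ⟨⟨⟨a1, a2⟩, a3, a4⟩, -⟩ := ends_of_RE he
  obtain ⟨⟨⟨b1, b2⟩, b3, b4⟩, -⟩ := ends_of_RE hr'
  rcases (by omega : q.1 + 7 ≤ r.1 ∨ r.1 + 7 ≤ q.1 ∨ q.2 + 7 ≤ r.2 ∨ r.2 + 7 ≤ q.2) with
    h1 | h1 | h1 | h1
  · have := wx_sep hW q1 r2 h1
    omega
  · have := wx_sep hW r1 q2 h1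
    omega
  · have := wx_sep hW q3 r4 h1
    omega
  · have := wx_sep hW r3 q4 h1
    omega

theorem badW_local {n W R R1 m : ℤ} {M : ℕ} {q : Vtx} (F : Finset Edg) :
    BadW n W R R1 m M q F ↔ BadW n W R R1 m M q (F ∩ Win n W q) := by
  unfold BadW BadS BadY
  rw [inter_assoc, inter_self]

/-- the probability that all blocks of a set are bad -/
theorem all_badW {n W R R1 m : ℤ} {M : ℕ} (hW : 1 ≤ W) (hn : 3 * W ≤ n) {η : ℝ} {B : Finset Vtx}
    (hcl : ∀ q ∈ B, ∀ r ∈ B, cls q = cls r) (hB : ∀ q ∈ B, Blk0 n W q)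
    (hpr : ∀ q ∈ B, PP (RE 0 n 0 n) (BadW n W R R1 m M q) ≤ η) :
    PP (RE 0 n 0 n) (fun F => ∀ q ∈ B, BadW n W R R1 m M q F) ≤ η ^ B.card := by
  classical
  have h1 : PP (RE 0 n 0 n) (fun F => ∀ q ∈ B, BadW n W R R1 m M q F) =
      Ex (fun _ => (1/2:ℝ)) (RE 0 n 0 n) (fun F => ∏ q ∈ B, ind (BadW n W R R1 m M q F)) := by
    refine Ex_congr fun F _ => ?_
    by_cases h : ∀ q ∈ B, BadW n W R R1 m M q F
    · rw [ind_of h, prod_eq_one fun q hq => ind_of (h q hq)]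
    · rw [ind_not_of h]
      push Not at h
      obtain ⟨q, hq, hn⟩ := h
      rw [prod_eq_zero hq (ind_not_of hn)]
  rw [h1, TH992.T.Ex_prod_indep B (Win n W) (fun q _ => win_sub hn)
    (fun q hq r hr hne => win_disj hW (hB q hq) (hB r hr) (hcl q hq r hr) hne)
    (fun q F => ind (BadW n W R R1 m M q F))
    (fun q _ F _ => ind_congr (badW_local F)), ← prod_const]
  exact prod_le_prod (fun q _ => Ex_nonneg half_ok fun F _ => ind_nonneg _) hpr

/-- PIECE CU -/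
theorem cu : St_CU := by
  classical
  intro n W R R1 m M k hW hn hbad
  have hbox : ∀ q, Win n W q ⊆ RE 0 n 0 n := fun q => win_sub hn
  obtain ⟨Ps, hPs⟩ : ∃ Ps : Finset Vtx, Ps = Finset.Icc (0 : ℤ) (n / W) ×ˢ
    Finset.Icc (0 : ℤ) (n / W) := ⟨_, rfl⟩
  have hmono : PP (RE 0 n 0 n) (Chn n W R R1 m M k) ≤ PP (RE 0 n 0 n) (fun F => ∃ p ∈ Ps,
      ∃ Q ∈ AS k p, (Q.card = k + 1 ∧ ∃ B ∈ Q.powerset, ((∀ q ∈ B, ∀ r ∈ B, cls q = cls r) ∧
        k + 1 ≤ 98 * B.card ∧ ∀ q ∈ B, Blk0 n W q ∧ BadW n W R R1 m M q F))) := by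
    refine Pr_mono half_ok fun F _ h => ?_
    obtain ⟨p, ⟨p1, p2, p3, p4⟩, Q, hQ, hQc, B, hB, hcl, hc, hb⟩ := h
    refine ⟨p, ?_, Q, hQ, hQc, B, hB, hcl, hc, hb⟩
    rw [hPs, mem_product, mem_Icc, mem_Icc]
    exact ⟨⟨p1, (Int.le_ediv_iff_mul_le (by omega)).2 p2⟩, p3,
      (Int.le_ediv_iff_mul_le (by omega)).2 p4⟩
  have hQ : ∀ p, ∀ Q ∈ AS k p, PP (RE 0 n 0 n) (fun F => Q.card = k + 1 ∧
      ∃ B ∈ Q.powerset, ((∀ q ∈ B, ∀ r ∈ B, cls q = cls r) ∧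
      k + 1 ≤ 98 * B.card ∧ ∀ q ∈ B, Blk0 n W q ∧ BadW n W R R1 m M q F)) ≤
      2 ^ (k + 1) * (1/36) ^ (k + 1) := by
    intro p Q hQ
    by_cases hc : Q.card = k + 1
    · refine (Pr_mono half_ok (B := fun F => ∃ B ∈ Q.powerset,
        ((∀ q ∈ B, ∀ r ∈ B, cls q = cls r) ∧
        k + 1 ≤ 98 * B.card ∧ ∀ q ∈ B, Blk0 n W q ∧ BadW n W R R1 m M q F))
        fun F _ h => h.2).trans ?_
      refine (Pr_exists_le half_ok _ _ _).trans ?_
      have hone : ∀ B ∈ Q.powerset, PP (RE 0 n 0 n) (fun F =>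
          (∀ q ∈ B, ∀ r ∈ B, cls q = cls r) ∧
          k + 1 ≤ 98 * B.card ∧ ∀ q ∈ B, Blk0 n W q ∧ BadW n W R R1 m M q F) ≤
          (1/36) ^ (k + 1) := by
        intro B hB
        rw [mem_powerset] at hB
        by_cases hcl : (∀ q ∈ B, ∀ r ∈ B, cls q = cls r) ∧ k + 1 ≤ 98 * B.card ∧
            ∀ q ∈ B, Blk0 n W q
        · refine (Pr_mono half_ok (B := fun F => ∀ q ∈ B, BadW n W R R1 m M q F)
            fun F _ h q hq => (h.2.2 q hq).2).trans ?_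
          refine (all_badW hW hn hcl.1 hcl.2.2 fun q _ => hbad q _ (hbox q)).trans ?_
          rw [← pow_mul]
          exact pow_le_pow_of_le_one (by norm_num) (by norm_num) hcl.2.1
        · have h0 : PP (RE 0 n 0 n) (fun F =>
              (∀ q ∈ B, ∀ r ∈ B, cls q = cls r) ∧
              k + 1 ≤ 98 * B.card ∧ ∀ q ∈ B, Blk0 n W q ∧ BadW n W R R1 m M q F) = 0 := by
            unfold PP Pr
            rw [Ex_congr (g := fun _ => 0) (fun F _ => ind_not_of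
              (fun h => hcl ⟨h.1, h.2.1, fun q hq => (h.2.2 q hq).1⟩)), Ex_const]
          rw [h0]
          positivity
      refine (sum_le_card_nsmul _ _ _ hone).trans ?_
      rw [card_powerset, hc, nsmul_eq_mul]
      push_cast
      exact le_rfl
    · have h0 : PP (RE 0 n 0 n) (fun F => Q.card = k + 1 ∧
          ∃ B ∈ Q.powerset, ((∀ q ∈ B, ∀ r ∈ B, cls q = cls r) ∧
          k + 1 ≤ 98 * B.card ∧ ∀ q ∈ B, Blk0 n W q ∧ BadW n W R R1 m M q F)) = 0 := by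
        unfold PP Pr
        rw [Ex_congr (g := fun _ => 0) (fun F _ => ind_not_of (fun h => hc h.1)), Ex_const]
      rw [h0]
      positivity
  have hP : ∀ p ∈ Ps, PP (RE 0 n 0 n) (fun F => ∃ Q ∈ AS k p, (Q.card = k + 1 ∧
      ∃ B ∈ Q.powerset, ((∀ q ∈ B, ∀ r ∈ B, cls q = cls r) ∧
        k + 1 ≤ 98 * B.card ∧ ∀ q ∈ B, Blk0 n W q ∧ BadW n W R R1 m M q F))) ≤
      (1/2) ^ (k + 1) := by
    intro p _
    refine (Pr_exists_le half_ok _ _ _).trans ?_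
    refine (sum_le_card_nsmul _ _ _ (hQ p)).trans ?_
    rw [nsmul_eq_mul]
    have h1 : ((AS k p).card : ℝ) ≤ 9 ^ (k + 1) := by
      have h2 : ((AS k p).card : ℝ) ≤ ((9 ^ k : ℕ) : ℝ) := by exact_mod_cast AS_card k p
      push_cast at h2
      refine h2.trans ?_
      exact pow_le_pow_right₀ (by norm_num) (by omega)
    calc ((AS k p).card : ℝ) * (2 ^ (k + 1) * (1/36) ^ (k + 1))
        ≤ 9 ^ (k + 1) * (2 ^ (k + 1) * (1/36) ^ (k + 1)) := by gcongr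
      _ = (1/2) ^ (k + 1) := by
          rw [← mul_pow, ← mul_pow]
          norm_num
  refine hmono.trans ((Pr_exists_le half_ok _ _ _).trans ?_)
  refine (sum_le_card_nsmul _ _ _ hP).trans ?_
  rw [nsmul_eq_mul]
  have hWr : (0 : ℝ) < W := by exact_mod_cast (by omega : (0 : ℤ) < W)
  have hnW : 0 ≤ (n : ℤ) / W := Int.ediv_nonneg (by omega) (by omega)
  have hcard : (Ps.card : ℝ) ≤ ((n : ℝ) / W + 1) ^ 2 := by
    have h1 : (Ps.card : ℤ) = ((n : ℤ) / W + 1) * ((n : ℤ) / W + 1) := by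
      rw [hPs, card_product, Int.card_Icc]
      push_cast
      rw [Int.toNat_of_nonneg (by omega)]
      ring
    have h2 : (((n : ℤ) / W : ℤ) : ℝ) ≤ (n : ℝ) / W := by
      rw [le_div_iff₀ hWr]
      have := Int.ediv_mul_le (n : ℤ) (show W ≠ 0 by omega)
      exact_mod_cast this
    have h3 : (Ps.card : ℝ) = (((n : ℤ) / W : ℤ) + 1 : ℝ) * (((n : ℤ) / W : ℤ) + 1 : ℝ) := by
      exact_mod_cast h1
    rw [h3, ← sq]
    have h4 : (0 : ℝ) ≤ (((n : ℤ) / W : ℤ) : ℝ) := by exact_mod_cast hnW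
    gcongr
  gcongr

end Pool.Agent.W2helper3.LT
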