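import Pool.Agent.W2helper78.LT.Stm

/-!
# Project LT (helper78), piece EVL: supports of the events of the tube
-/

set_option autoImplicit false

namespace Pool.Agent.W2helper3.LT

open H974 Finset H342P H984P H984H TH992.L W78LT

theorem dc_mono {n : ℕ} {F G : Finset Edg} (h : F ⊆ G) : dc n G ⊆ dc n F := by
  intro e he
  rw [mem_dmp, mem_sdiff] at he ⊢
  exact ⟨he.1, fun hc => he.2 (h hc)⟩

theorem dc_inter {n : ℕ} {R T : Finset Edg} (h : ∀ e ∈ RE 0 (n : ℤ) 0 n, e ∉ T → dl e ∉ R)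
    (F : Finset Edg) : dc n (F ∩ T) ∩ R = dc n F ∩ R := by
  ext e
  simp only [mem_inter, mem_dmp, mem_sdiff]
  constructor
  · rintro ⟨⟨h1, h2⟩, h3⟩
    refine ⟨⟨h1, fun hc => h2 ⟨hc, ?_⟩⟩, h3⟩
    by_contra hT
    apply h _ h1 hT
    rwa [Equiv.apply_symm_apply]
  · rintro ⟨⟨h1, h2⟩, h3⟩
    exact ⟨⟨h1, fun hc => h2 hc.1⟩, h3⟩

theorem mem_dl_LRE {a b c d : ℤ} {e : Edg} : dl e ∈ LRE a b c d ↔ e ∈ TBE (a + 1) b c (d + 1) := by
  have h := dmp_TBE (a + 1) b c (d + 1)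
  have h1 : a + 1 - 1 = a := by ring
  have h2 : d + 1 - 1 = d := by ring
  rw [h1, h2] at h
  rw [← h, mem_dmp, Equiv.symm_apply_apply]

theorem mem_dl_TBE {a b c d : ℤ} {e : Edg} : dl e ∈ TBE a b c d ↔ e ∈ LRE a (b + 1) (c + 1) d := by
  have h := dmp_LRE a (b + 1) (c + 1) d
  have h1 : b + 1 - 1 = b := by ring
  have h2 : c + 1 - 1 = c := by ring
  rw [h1, h2] at h
  rw [← h, mem_dmp, Equiv.symm_apply_apply]

theorem LRc_dc {n : ℕ} {a b c d : ℤ} {T : Finset Edg}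
    (h : ∀ e ∈ RE 0 (n : ℤ) 0 n, e ∈ TBE (a + 1) b c (d + 1) → e ∈ T) (F : Finset Edg) :
    LRc a b c d (dc n F) ↔ LRc a b c d (dc n (F ∩ T)) := by
  rw [LRc_local (F := dc n F) (S := LRE a b c d) (Subset.refl _),
    LRc_local (F := dc n (F ∩ T)) (S := LRE a b c d) (Subset.refl _), dc_inter]
  intro e he heT hR
  exact heT (h e he (mem_dl_LRE.1 hR))

theorem TBc_dc {n : ℕ} {a b c d : ℤ} {T : Finset Edg}
    (h : ∀ e ∈ RE 0 (n : ℤ) 0 n, e ∈ LRE a (b + 1) (c + 1) d → e ∈ T) (F : Finset Edg) :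
    TBc a b c d (dc n F) ↔ TBc a b c d (dc n (F ∩ T)) := by
  rw [TBc_local (F := dc n F) (S := TBE a b c d) (Subset.refl _),
    TBc_local (F := dc n (F ∩ T)) (S := TBE a b c d) (Subset.refl _), dc_inter]
  intro e he heT hR
  exact heT (h e he (mem_dl_TBE.1 hR))

/-- support of `UA` -/
noncomputable def sU (n a j : ℕ) : Finset Edg :=
  RE 0 n 0 n ∩ (TBE ((j:ℤ) * a) (((j:ℤ) + 2) * a) a (2 * a + 1) ∪
    LRE (((j:ℤ) + 1) * a - 1) (((j:ℤ) + 2) * a + 1) (a + 1) (2 * a))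

/-- support of `NA` -/
noncomputable def sN (n a g : ℕ) : Finset Edg :=
  RE 0 n 0 n ∩ (LRE (16 * (g:ℤ) + a) (16 * (g:ℤ) + 2 * a + 1) 0 (2 * a) ∪
    LRE (10 * (g:ℤ)) (11 * (g:ℤ) + 1) (a + 1) (2 * (g:ℤ)))

open Classical in
/-- support of `ZA` -/
noncomputable def sZ (n g : ℕ) : Finset Edg :=
  (RE 0 (n:ℤ) 0 n).filter fun e => 20 * (g:ℤ) ≤ e.1 ∨
    ((g:ℤ) ≤ e.2.1 ∧ (e.2.2 = true → (g:ℤ) < e.2.1))

theorem UA_dec {n a j : ℕ} {F G : Finset Edg} (h : F ⊆ G) (hG : UA n a j G) : UA n a j F :=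
  ⟨hG.1.mono (dc_mono h), hG.2.mono (dc_mono h)⟩

theorem NA_dec {n a g : ℕ} {F G : Finset Edg} (h : F ⊆ G) (hG : NA n a g G) : NA n a g F :=
  ⟨hG.1.mono (dc_mono h), hG.2.mono (dc_mono h)⟩

theorem ZA_dec {n g : ℕ} {F G : Finset Edg} (h : F ⊆ G) (hG : ZA n g G) : ZA n g F :=
  ⟨hG.1.mono (dc_mono h), hG.2.1.mono (dc_mono h),
    fun i h1 h2 => (hG.2.2.1 i h1 h2).mono (dc_mono h),
    fun i h1 h2 => (hG.2.2.2 i h1 h2).mono (dc_mono h)⟩

theorem UA_loc {n a j : ℕ} (F : Finset Edg) : UA n a j F ↔ UA n a j (F ∩ sU n a j) := by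
  unfold UA
  rw [LRc_dc (T := sU n a j) ?_ F, TBc_dc (T := sU n a j) ?_ F]
  · intro e he h
    unfold sU
    rw [mem_inter, mem_union]
    exact ⟨he, Or.inr h⟩
  · intro e he h
    unfold sU
    rw [mem_inter, mem_union]
    refine ⟨he, Or.inl ?_⟩
    have e1 : (j:ℤ) * a - 1 + 1 = (j:ℤ) * a := by ring
    rwa [e1] at h

theorem NA_loc {n a g : ℕ} (F : Finset Edg) : NA n a g F ↔ NA n a g (F ∩ sN n a g) := by
  unfold NA
  rw [TBc_dc (T := sN n a g) (a := 16 * (g:ℤ) + a) ?_ F, TBc_dc (T := sN n a g) (a := 10 * (g:ℤ)) ?_ F]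
  · intro e he h
    unfold sN
    rw [mem_inter, mem_union]
    exact ⟨he, Or.inr h⟩
  · intro e he h
    unfold sN
    rw [mem_inter, mem_union]
    refine ⟨he, Or.inl ?_⟩
    have e1 : (-1 : ℤ) + 1 = 0 := by ring
    rwa [e1] at h

theorem ZA_loc {n g : ℕ} (hg : 1 ≤ g) (F : Finset Edg) : ZA n g F ↔ ZA n g (F ∩ sZ n g) := by
  have hg' : (1 : ℤ) ≤ g := by exact_mod_cast hg
  have h1 := LRc_dc (n := n) (a := 10 * (g:ℤ)) (b := 11 * (g:ℤ)) (c := g) (d := 2 * (g:ℤ))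
    (T := sZ n g) (by
      rintro ⟨x, y, _ | _⟩ he h
      · rw [mem_TBE_false] at h
        exact mem_filter.2 ⟨he, Or.inr ⟨by show (g:ℤ) ≤ y; omega, fun h => by simp at h⟩⟩
      · rw [mem_TBE_true] at h
        exact mem_filter.2 ⟨he, Or.inr ⟨by show (g:ℤ) ≤ y; omega, fun _ => by
          show (g:ℤ) < y; omega⟩⟩) F
  have h2 := TBc_dc (n := n) (a := 10 * (g:ℤ)) (b := 11 * (g:ℤ)) (c := g) (d := n)
    (T := sZ n g) (by
      rintro ⟨x, y, _ | _⟩ he h
      · rw [mem_LRE_false] at h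
        exact mem_filter.2 ⟨he, Or.inr ⟨by show (g:ℤ) ≤ y; omega, fun h => by simp at h⟩⟩
      · rw [mem_LRE_true] at h
        exact mem_filter.2 ⟨he, Or.inr ⟨by show (g:ℤ) ≤ y; omega, fun _ => by
          show (g:ℤ) < y; omega⟩⟩) F
  have h3 : ∀ i : ℕ, 2 ≤ i → (TBc (10 * (g:ℤ) * i) (10 * (g:ℤ) * i + g) (-1) n (dc n F) ↔
      TBc (10 * (g:ℤ) * i) (10 * (g:ℤ) * i + g) (-1) n (dc n (F ∩ sZ n g))) := by
    intro i hi
    have hi' : (2 : ℤ) ≤ i := by exact_mod_cast hi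
    have hm : 20 * (g:ℤ) ≤ 10 * (g:ℤ) * i := by nlinarith
    refine TBc_dc ?_ F
    rintro ⟨x, y, _ | _⟩ he h
    · rw [mem_LRE_false] at h
      exact mem_filter.2 ⟨he, Or.inl (by show 20 * (g:ℤ) ≤ x; omega)⟩
    · rw [mem_LRE_true] at h
      exact mem_filter.2 ⟨he, Or.inl (by show 20 * (g:ℤ) ≤ x; omega)⟩
  have h4 : ∀ j : ℕ, 1 ≤ j → (LRc (-1) n (10 * (g:ℤ) * j) (10 * (g:ℤ) * j + g) (dc n F) ↔
      LRc (-1) n (10 * (g:ℤ) * j) (10 * (g:ℤ) * j + g) (dc n (F ∩ sZ n g))) := by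
    intro j hj
    have hj' : (1 : ℤ) ≤ j := by exact_mod_cast hj
    have hm : 10 * (g:ℤ) ≤ 10 * (g:ℤ) * j := by nlinarith
    refine LRc_dc ?_ F
    rintro ⟨x, y, _ | _⟩ he h
    · rw [mem_TBE_false] at h
      exact mem_filter.2 ⟨he, Or.inr ⟨by show (g:ℤ) ≤ y; omega, fun h => by simp at h⟩⟩
    · rw [mem_TBE_true] at h
      exact mem_filter.2 ⟨he, Or.inr ⟨by show (g:ℤ) ≤ y; omega, fun _ => by
        show (g:ℤ) < y; omega⟩⟩
  unfold ZA
  constructor
  · rintro ⟨a1, a2, a3, a4⟩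
    exact ⟨h1.1 a1, h2.1 a2, fun i h5 h6 => (h3 i h5).1 (a3 i h5 h6),
      fun i h5 h6 => (h4 i h5).1 (a4 i h5 h6)⟩
  · rintro ⟨a1, a2, a3, a4⟩
    exact ⟨h1.2 a1, h2.2 a2, fun i h5 h6 => (h3 i h5).2 (a3 i h5 h6),
      fun i h5 h6 => (h4 i h5).2 (a4 i h5 h6)⟩

/-- PIECE EVL -/
theorem evl : St_EVL := by
  classical
  rintro n a t ⟨ha, ht, hn⟩
  obtain ⟨g, hg⟩ : ∃ g : ℕ, g = t * a := ⟨_, rfl⟩
  have hga : 5 * a ≤ g := by rw [hg]; exact Nat.mul_le_mul_right a ht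
  have hgz : (t : ℤ) * a = g := by rw [hg]; push_cast; ring
  have hgz' : ((t * a : ℕ) : ℤ) = g := by rw [hg]
  refine ⟨RE 0 (16 * (g:ℤ)) 0 a, RE 0 n 0 n \ RE 0 (16 * (g:ℤ)) 0 a,
    fun i => RE ((i:ℤ) * a) (((i:ℤ) + 2) * a) 0 a,
    fun j => if j < 16 * t + 1 then sU n a j else if j = 16 * t + 1 then sN n a g else sZ n g,
    RE_subset (by omega) (by omega) (by omega) (by omega), sdiff_subset, disjoint_sdiff,
    ?_, ?_, ?_⟩
  · intro i hi
    rw [mem_range] at hi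
    have hi1 : ((i:ℤ) + 2) * a ≤ 16 * g := by
      have h1 : (i + 2) * a ≤ (16 * t) * a := Nat.mul_le_mul_right a (by omega)
      have h2 : (16 * t) * a = 16 * g := by rw [hg]; ring
      rw [h2] at h1
      exact_mod_cast h1
    have hi0 : (0:ℤ) ≤ (i:ℤ) * a := by positivity
    have e1 : ((i:ℤ) + 1) * a = (i:ℤ) * a + a := by ring
    refine ⟨fun F G hFG hG h => ⟨h.1.mono hFG, h.2.mono hFG⟩,
      RE_subset hi0 hi1 le_rfl le_rfl, fun F _ => ?_⟩
    unfold OA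
    rw [LRc_local (F := F) (S := RE ((i:ℤ) * a) (((i:ℤ) + 2) * a) 0 a) LRE_subset_RE,
      TBc_local (F := F) (S := RE ((i:ℤ) * a) (((i:ℤ) + 2) * a) 0 a)
        (TBE_subset_RE.trans (RE_subset (by omega) le_rfl le_rfl le_rfl))]
  · intro j hj
    rw [mem_range] at hj
    refine ⟨fun F G hFG hG h => ⟨fun h1 => UA_dec hFG (h.1 h1), fun h1 => NA_dec hFG (h.2.1 h1),
      fun h1 => ZA_dec hFG (h.2.2 h1)⟩, ?_, fun F _ => ?_⟩
    · intro e he
      simp only at he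
      split_ifs at he with c1 c2
      · unfold sU at he
        rw [mem_inter, mem_union] at he
        rw [mem_sdiff]
        refine ⟨he.1, fun hc => ?_⟩
        obtain ⟨x, y, _ | _⟩ := e
        · rw [mem_TBE_false, mem_LRE_false] at he
          rw [mem_RE_false] at hc
          omega
        · rw [mem_TBE_true, mem_LRE_true] at he
          rw [mem_RE_true] at hc
          omega
      · unfold sN at he
        rw [mem_inter, mem_union] at he
        rw [mem_sdiff]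
        refine ⟨he.1, fun hc => ?_⟩
        obtain ⟨x, y, _ | _⟩ := e
        · rw [mem_LRE_false, mem_LRE_false] at he
          rw [mem_RE_false] at hc
          omega
        · rw [mem_LRE_true, mem_LRE_true] at he
          rw [mem_RE_true] at hc
          omega
      · unfold sZ at he
        rw [mem_filter] at he
        rw [mem_sdiff]
        refine ⟨he.1, fun hc => ?_⟩
        obtain ⟨x, y, _ | _⟩ := e
        · rw [mem_RE_false] at hc
          have h1 : 20 * (g:ℤ) ≤ x ∨ (g:ℤ) ≤ y := he.2.imp id fun h => h.1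
          omega
        · rw [mem_RE_true] at hc
          have h1 : 20 * (g:ℤ) ≤ x ∨ (g:ℤ) ≤ y := he.2.imp id fun h => h.1
          omega
    · have hN : ∀ F, NA n a (t * a) F ↔ NA n a (t * a) (F ∩ sN n a g) := by
        intro F
        rw [← hg]
        exact NA_loc F
      have hZ : ∀ F, ZA n (t * a) F ↔ ZA n (t * a) (F ∩ sZ n g) := by
        intro F
        rw [← hg]
        exact ZA_loc (by omega) F
      unfold DD
      simp only
      split_ifs with c1 c2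
      · exact ⟨fun h => ⟨fun h1 => (UA_loc F).1 (h.1 h1), fun h1 => absurd h1 (by omega),
          fun h1 => absurd h1 (by omega)⟩, fun h => ⟨fun h1 => (UA_loc F).2 (h.1 h1),
          fun h1 => absurd h1 (by omega), fun h1 => absurd h1 (by omega)⟩⟩
      · exact ⟨fun h => ⟨fun h1 => absurd h1 (by omega), fun h1 => (hN F).1 (h.2.1 h1),
          fun h1 => absurd h1 (by omega)⟩, fun h => ⟨fun h1 => absurd h1 (by omega),
          fun h1 => (hN F).2 (h.2.1 h1), fun h1 => absurd h1 (by omega)⟩⟩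
      · exact ⟨fun h => ⟨fun h1 => absurd h1 (by omega), fun h1 => absurd h1 (by omega),
          fun h1 => (hZ F).1 (h.2.2 h1)⟩, fun h => ⟨fun h1 => absurd h1 (by omega),
          fun h1 => absurd h1 (by omega), fun h1 => (hZ F).2 (h.2.2 h1)⟩⟩
  · intro u r u1 u2 u3 u4 hr
    rw [hgz] at u2
    refine ⟨fun i _ hi => ?_, fun j hj hj1 hj2 => ?_⟩
    · rw [disjoint_left]
      intro e he hc
      have e2 : ((i:ℤ) + 2) * a = (i:ℤ) * a + 2 * a := by ring
      have hd : (i:ℤ) * a - u.1 > 5 * a ∨ u.1 - (i:ℤ) * a > 5 * a := by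
        rcases lt_abs.1 hi with h | h
        · left; omega
        · right; omega
      obtain ⟨x, y, _ | _⟩ := e
      · rw [mem_RE_false] at he hc
        omega
      · rw [mem_RE_true] at he hc
        omega
    · rw [mem_range] at hj
      rw [disjoint_left]
      intro e he hc
      simp only at he
      split_ifs at he with c1
      · have hd : (j:ℤ) * a - u.1 > 5 * a ∨ u.1 - (j:ℤ) * a > 5 * a := by
          rcases lt_abs.1 (hj1 c1) with h | h
          · left; omega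
          · right; omega
        have e1 : ((j:ℤ) + 1) * a = (j:ℤ) * a + a := by ring
        have e2 : ((j:ℤ) + 2) * a = (j:ℤ) * a + 2 * a := by ring
        unfold sU at he
        rw [mem_inter, mem_union, e1, e2] at he
        obtain ⟨x, y, _ | _⟩ := e
        · rw [mem_TBE_false, mem_LRE_false] at he
          rw [mem_RE_false] at hc
          omega
        · rw [mem_TBE_true, mem_LRE_true] at he
          rw [mem_RE_true] at hc
          omega
      · unfold sZ at he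
        rw [mem_filter] at he
        obtain ⟨x, y, _ | _⟩ := e
        · rw [mem_RE_false] at hc
          have h1 : 20 * (g:ℤ) ≤ x ∨ (g:ℤ) ≤ y := he.2.imp id fun h => h.1
          omega
        · rw [mem_RE_true] at hc
          have h1 : 20 * (g:ℤ) ≤ x ∨ (g:ℤ) ≤ y := he.2.imp id fun h => h.1
          omega

end Pool.Agent.W2helper3.LT
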